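import Pool.Agent.Q324.LF.Main

/-!
# MP_f29e3e_lc: strong NP-hardness of finding large solution-free subsets
-/

namespace Pool.Agent.Results.MP_f29e3e_lc.StrongNPHard

open Pool.Agent.NPC Pool.Agent.Q324.LF

/-- For every equation `a_1 x_1 + ... + a_ℓ x_ℓ = b y` with `ℓ ≥ 2` and positive integer
coefficients there is a polynomial `p` such that the problem `ℒ`-Free Subset is `NP`-hard on the
instances `(A, k)` with `|x| ≤ p(|A|)` for all `x ∈ A`. Here `A` is given by a list of different
integers written in binary, `BoundedInst p` is the restriction on the instances and `HasFree a b`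
is the question. The hardness is stated for the language of the restricted problem and also
directly: every language of `NP` has a polynomial-time reduction to the problem which produces
only restricted instances. -/
theorem result {l : ℕ} (hl : 2 ≤ l) (a : Fin l → ℕ) (ha : ∀ i, 0 < a i) (b : ℕ) (hb : 0 < b) :
    ∃ p : Polynomial ℕ,
      NPHardP (fun I : List ℤ × ℕ => BoundedInst p I ∧ HasFree a b I) ∧
      ∀ L : Set (List Bool), InNP L → ∃ f : List Bool → List ℤ × ℕ,
        PolyTime (fun x => bits (f x)) ∧ (∀ x, BoundedInst p (f x)) ∧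
          ∀ x, x ∈ L ↔ HasFree a b (f x) := by
  obtain ⟨p, hp⟩ := hardPr_free hl ha hb
  refine ⟨p, ?_, ?_⟩
  · refine HardI.toNPHardP fun L hL => ?_
    obtain ⟨f, hf, hfp, hfL⟩ := hp L hL
    exact ⟨f, hf, fun x => (hfL x).trans ⟨fun h => ⟨hfp x, h⟩, fun h => h.2⟩⟩
  · intro L hL
    obtain ⟨f, hf, hfp, hfL⟩ := hp L hL
    exact ⟨f, PC.toPolyTime hf, hfp, hfL⟩

end Pool.Agent.Results.MP_f29e3e_lc.StrongNPHard
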